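import Pool.Agent.Y254.HK.Stm
import Pool.Agent.W135.HM.CFGT

/-!
# HK-CFGU: existence of the configuration with further properties
-/

set_option autoImplicit false

open Finset
open scoped Classical

namespace Pool.Agent.Y624.HK
open Pool.Agent.W904.AK Pool.Agent.W46.HD Pool.Agent.W46.HM Pool.Agent.W597.HD
  Pool.Agent.W135.HM Pool.Agent.Y254HK

/-! ### Conditional independence of a height -/

section Bd

variable {Ω : Type} [Fintype Ω] {n : ℕ} {Θ Θ₂ ι γ : Type} [Fintype Θ] [Fintype Θ₂]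

theorem pz_nonneg (n : ℕ) (x y : ℤ) : 0 ≤ pz n x y :=
  Real.log_nonneg (le_max_left _ _)

/-- the height `(b z).2` is independent of `rest z` given the line -/
def BdI (n : ℕ) (F : Ω → ℝ) (q : Θ → ℝ) (b : Θ → Ω × Fin n) (rest : Θ → ι) : Prop :=
  ∀ (h : ι → ℝ) (X : ι → ℤ), (∀ i, 0 ≤ h i) →
    ∑ z, q z * (h (rest z) * pz n (((b z).2 : ℕ) : ℤ) (X (rest z))) ≤
      ∑ z, q z * (h (rest z) * F (b z).1)

theorem bd_base {p : Ω × Fin n → ℝ} (hp : IsLaw p) {s : Ω → ℝ}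
    (hs : ∀ (ω : Ω) (x : ℤ), ∑ j : Fin n, p (ω, j) * pz n ((j : ℕ) : ℤ) x ≤ s ω)
    {q : Θ → ℝ} (hq : IsLaw q) (f : Θ → Ω) :
    BdI n (fun ω => s ω / im p Prod.fst ω) (glue q p f Prod.fst) (fun z => z.2)
      (fun z => z.1) := by
  intro h X hh
  rw [Fintype.sum_prod_type, Fintype.sum_prod_type]
  refine Finset.sum_le_sum fun x _ => ?_
  have hP : im p Prod.fst (f x) = ∑ j, p (f x, j) := by
    rw [im_eq_sum, Fintype.sum_prod_type, Finset.sum_eq_single (f x)]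
    · refine Finset.sum_congr rfl fun j _ => ?_
      rw [if_pos rfl]
    · intro ω _ hω
      refine Finset.sum_eq_zero fun j _ => ?_
      rw [if_neg hω]
    · intro h
      exact absurd (Finset.mem_univ _) h
  have hg : ∀ G : Ω × Fin n → ℝ, ∑ b, glue q p f Prod.fst (x, b) * G b =
      q x / im q f (f x) * ∑ j, p (f x, j) * G (f x, j) := by
    intro G
    rw [Fintype.sum_prod_type, Finset.sum_eq_single (f x)]
    · rw [Finset.mul_sum]
      refine Finset.sum_congr rfl fun j _ => ?_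
      unfold glue
      rw [if_pos rfl]
      ring
    · intro ω _ hω
      refine Finset.sum_eq_zero fun j _ => ?_
      unfold glue
      rw [if_neg (fun h => hω h.symm), zero_mul]
    · intro h
      exact absurd (Finset.mem_univ _) h
  have h1 := hg fun b => h x * pz n ((b.2 : ℕ) : ℤ) (X x)
  have h2 := hg fun b => h x * (s b.1 / im p Prod.fst b.1)
  beta_reduce at h1 h2 ⊢
  rw [h1, h2]
  refine mul_le_mul_of_nonneg_left ?_ (div_nonneg (hq.nonneg _) (im_nonneg hq _ _))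
  have e1 : ∑ j, p (f x, j) * (h x * pz n ((j : ℕ) : ℤ) (X x)) =
      h x * ∑ j, p (f x, j) * pz n ((j : ℕ) : ℤ) (X x) := by
    rw [Finset.mul_sum]
    refine Finset.sum_congr rfl fun j _ => ?_
    ring
  have e2 : ∑ j, p (f x, j) * (h x * (s (f x) / im p Prod.fst (f x))) =
      h x * ((∑ j, p (f x, j)) * (s (f x) / im p Prod.fst (f x))) := by
    rw [Finset.sum_mul, Finset.mul_sum]
    refine Finset.sum_congr rfl fun j _ => ?_
    ring
  rw [e1, e2]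
  refine mul_le_mul_of_nonneg_left ?_ (hh x)
  rw [hP]
  by_cases h0 : ∑ j, p (f x, j) = 0
  · have h3 : ∀ j ∈ (Finset.univ : Finset (Fin n)), p (f x, j) = 0 :=
      (Finset.sum_eq_zero_iff_of_nonneg fun j _ => hp.nonneg _).1 h0
    rw [h0, zero_mul]
    refine le_of_eq (Finset.sum_eq_zero fun j hj => ?_)
    rw [h3 j hj, zero_mul]
  · rw [mul_div_cancel₀ _ h0]
    exact hs _ _

theorem bd_right {F : Ω → ℝ} {q : Θ → ℝ} {b : Θ → Ω × Fin n} {rest : Θ → ι}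
    (hB : BdI n F q b rest) (hq : IsLaw q) {q2 : Θ₂ → ℝ} (hq2 : IsLaw q2) (f : ι → γ)
    (g : Θ₂ → γ) :
    BdI n F (glue q q2 (fun x => f (rest x)) g) (fun z => b z.1) (fun z => (rest z.1, z.2)) := by
  intro h X hh
  rw [Fintype.sum_prod_type, Fintype.sum_prod_type, Finset.sum_comm, Finset.sum_comm (s := univ)
    (t := univ) (f := fun x y => glue q q2 (fun x => f (rest x)) g (x, y) *
      (h (rest (x, y).1, (x, y).2) * F (b (x, y).1).1))]
  refine Finset.sum_le_sum fun y _ => ?_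
  have h1 := hB (fun i => (if f i = g y then q2 y / im q (fun x => f (rest x)) (f i) else 0) *
    h (i, y)) (fun i => X (i, y)) (fun i => mul_nonneg (by
      split_ifs
      · exact div_nonneg (hq2.nonneg _) (im_nonneg hq _ _)
      · exact le_rfl) (hh _))
  have e : ∀ (G : Θ → ℝ), ∑ x, q x * ((if f (rest x) = g y then q2 y /
      im q (fun x => f (rest x)) (f (rest x)) else 0) * h (rest x, y) * G x) =
      ∑ x, glue q q2 (fun x => f (rest x)) g (x, y) * (h (rest x, y) * G x) := by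
    intro G
    refine Finset.sum_congr rfl fun x _ => ?_
    unfold glue
    beta_reduce
    by_cases hx : f (rest x) = g y
    · rw [if_pos hx, if_pos hx]
      ring
    · rw [if_neg hx, if_neg hx]
      ring
  rw [e, e] at h1
  exact h1

theorem bd_left {F : Ω → ℝ} {q : Θ → ℝ} {b : Θ → Ω × Fin n} {rest : Θ → ι}
    (hB : BdI n F q b rest) {q2 : Θ₂ → ℝ} (hq2 : IsLaw q2) (f : ι → γ)
    (g : Θ₂ → γ) :
    BdI n F (glue q2 q g (fun x => f (rest x))) (fun z => b z.2) (fun z => (z.1, rest z.2)) := by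
  intro h X hh
  rw [Fintype.sum_prod_type, Fintype.sum_prod_type]
  refine Finset.sum_le_sum fun y _ => ?_
  have h1 := hB (fun i => (if g y = f i then q2 y / im q2 g (g y) else 0) *
    h (y, i)) (fun i => X (y, i)) (fun i => mul_nonneg (by
      split_ifs
      · exact div_nonneg (hq2.nonneg _) (im_nonneg hq2 _ _)
      · exact le_rfl) (hh _))
  have e : ∀ (G : Θ → ℝ), ∑ x, q x * ((if g y = f (rest x) then q2 y /
      im q2 g (g y) else 0) * h (y, rest x) * G x) =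
      ∑ x, glue q2 q g (fun x => f (rest x)) (y, x) * (h (y, rest x) * G x) := by
    intro G
    refine Finset.sum_congr rfl fun x _ => ?_
    unfold glue
    beta_reduce
    by_cases hx : g y = f (rest x)
    · rw [if_pos hx, if_pos hx]
      ring
    · rw [if_neg hx, if_neg hx]
      ring
  rw [e, e] at h1
  exact h1

/-- the total -/
theorem bd_total {p : Ω × Fin n → ℝ} {s : Ω → ℝ} {S : ℝ}
    (hs0 : ∀ ω, 0 ≤ s ω) (hS : ∑ ω, s ω ≤ S) {q : Θ → ℝ} {b : Θ → Ω × Fin n}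
    (hb : im q b = p) : ∑ z, q z * (s (b z).1 / im p Prod.fst (b z).1) ≤ S := by
  have h1 := sum_im_mul q b (fun y => s y.1 / im p Prod.fst y.1)
  have h2 := sum_im_mul p Prod.fst (fun ω => s ω / im p Prod.fst ω)
  rw [hb] at h1
  rw [← h1, ← h2]
  refine le_trans (Finset.sum_le_sum fun ω _ => ?_) hS
  by_cases h0 : im p Prod.fst ω = 0
  · rw [h0, zero_mul]
    exact hs0 ω
  · rw [mul_div_cancel₀ _ h0]

theorem BdI.use {p : Ω × Fin n → ℝ} {s : Ω → ℝ} {S : ℝ}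
    (hs0 : ∀ ω, 0 ≤ s ω) (hS : ∑ ω, s ω ≤ S) {q : Θ → ℝ} {b : Θ → Ω × Fin n} {rest : Θ → ι}
    (hB : BdI n (fun ω => s ω / im p Prod.fst ω) q b rest) (hb : im q b = p) (X : ι → ℤ) :
    ∑ z, q z * pz n (((b z).2 : ℕ) : ℤ) (X (rest z)) ≤ S := by
  have h1 := hB (fun _ => 1) X fun _ => zero_le_one
  simp only [one_mul] at h1
  exact h1.trans (bd_total hs0 hS hb)

end Bd

/-! ### The configuration -/

section cfg

variable {Ω : Type} [Fintype Ω] {d n : ℕ} {p : Ω × Fin n → ℝ} {A D : Ω → Fin d → ℝ}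

theorem cfgT (hp : IsLaw p) : CfgT A D p (qq A D p)
    (fun z => z.1.1.1.1.1) (fun z => z.1.2.1.1.1) (fun z => z.2.1.1) (fun z => z.1.1.1.1.2)
    (fun z => z.1.1.1.2.2) (fun z => z.1.1.2.2) (fun z => z.2.2.2) (fun z => z.1.2.1.2.2)
    (fun z => z.1.2.2.2) := by
  have hlog := Hlog hp
  have hpid : H p id = aa p + (Real.log n - lam p) := by
    unfold aa lam
    ring
  have hce : H p (ce A D) = hh A D p + H p Prod.snd := by
    unfold hh
    have : H p (ce A D) = H p (fun z => (z.2, cell A D z.2 z.1)) := rfl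
    rw [this]
    ring
  have haa : H p Prod.fst = aa p := rfl
  have hr2 := H_r2 hp
  have hr3 := H_r3 hp
  rw [haa] at hr2 hr3
  have hq : IsLaw (qq A D p) := qq_law hp
  -- the pair of lines `l1, l3`
  have p1 := H_pair (A := A) (D := D) hp (u := fun a => a.1.1) (v := fun y => y.1)
    (Det.comp (qA A D p) (fun a => a.1.1) fun b => ce A D b.1)
    (Det.comp (r2 p) (fun y => y.1) fun b => ce A D b)
  have p2 : H (qA A D p) (fun a => a.1.1) = H (r2 p) (fun z => z) := by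
    rw [← H_r3_fst hp]
    exact H_map (qA_fst hp) (fun a => a.1)
  rw [H_r2_fst hp, p2] at p1
  -- the same with all heights
  have p3 := H_pair (A := A) (D := D) hp (u := fun a => a.1) (v := fun y => y)
    (Det.comp (qA A D p) (fun a => a.1) fun b => ce A D b.1.1)
    (Det.comp (r2 p) (fun y => y) fun b => ce A D b.1)
  have p4 : H (qA A D p) (fun a => a.1) = H (r3 p) (fun z => z) :=
    H_map (qA_fst hp) (fun a => a)
  rw [p4] at p3
  -- three lines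
  have p5 := H_pair (A := A) (D := D) hp (u := fun a => (a.1.1, (a.2.1.1, a.2.2)))
    (v := fun y => y.1)
    (Det.comp (qA A D p) (fun a => (a.1.1, (a.2.1.1, a.2.2))) fun b => ce A D b.1.1)
    (Det.comp (r2 p) (fun y => y.1) fun b => ce A D b)
  have p6 := H_pairA (A := A) (D := D) hp (u := fun a => a.1) (w := fun y => (y.1.1, y.2))
    (Det.comp (r3 p) (fun a => a.1) fun b => ce A D b.2)
    (Det.comp (r3 p) (fun y => (y.1.1, y.2)) fun b => ce A D b.1)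
  rw [H_r3_fst hp, H_r3_13 hp] at p6
  rw [H_r2_fst hp, p6] at p5
  -- three lines with all heights
  have p7 := H_pair (A := A) (D := D) hp (u := fun a => (a.1, a.2)) (v := fun y => y)
    (Det.comp (qA A D p) (fun a => (a.1, a.2)) fun b => ce A D b.1.1.1)
    (Det.comp (r2 p) (fun y => y) fun b => ce A D b.1)
  have p8 := H_pairA (A := A) (D := D) hp (u := fun a => a) (w := fun y => y)
    (Det.comp (r3 p) (fun a => a) fun b => ce A D b.1.2)
    (Det.comp (r3 p) (fun y => y) fun b => ce A D b.1.1)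
  rw [p8] at p7
  constructor
  · exact hq
  · intro z hz
    exact (qq_supp hz).2.2.2.2.2
  · intro z hz
    exact (qq_supp hz).2.2.2.1.2
  · exact H_line hq (m_t hp) (fun z _ => rfl) (fun z hz => (qq_supp hz).1.2)
  · exact H_line hq (m_t' hp) (fun z _ => rfl) (fun z hz => (qq_supp hz).2.2.1)
  · exact H_line hq (m_ta hp) (fun z _ => rfl) (fun z hz => (qq_supp hz).2.1.1)
  · exact H_line hq (m_v hp) (fun z _ => rfl) (fun z hz => (qq_supp hz).2.1.2)
  · -- tl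
    have e1 : H (qq A D p) (fun z => (z.1.1.1.1.1, z.1.1.2.2)) =
        H (qq A D p) (fun z => z.1.1.2) := by
      refine H_ae hq fun z hz => ?_
      exact Prod.ext (qq_supp hz).1.2.symm rfl
    have e2 : H (qq A D p) (fun z => z.1.1.2) = H p id := H_map (m_t hp) id
    have e3 : H (qq A D p) (fun z => z.1.1.1.1.1) = H p Prod.fst := H_map (m_s0 hp) Prod.fst
    rw [e1, e2, e3, haa, hpid]
    ring
  · -- f1
    have h3 : Det (qq A D p) (fun z => (z.1.1.1.1.1, z.2.1.1, z.1.1.1.1.2, z.1.1.1.2.2, z.1.1.2.2,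
        z.2.2.2)) (fun z => (z.1.1, z.2)) := by
      intro x y hx hy hxy
      obtain ⟨⟨x1, x2⟩, ⟨x3, x4⟩, x5, ⟨x6, -⟩, ⟨x7, -⟩⟩ := qq_supp hx
      obtain ⟨⟨y1, y2⟩, ⟨y3, y4⟩, y5, ⟨y6, -⟩, ⟨y7, -⟩⟩ := qq_supp hy
      simp only [Prod.mk.injEq] at hxy
      obtain ⟨e1, e2, e3, e4, e5, e6⟩ := hxy
      refine Prod.ext (Prod.ext (Prod.ext (Prod.ext e1 e3) (Prod.ext ?_ e4))
        (Prod.ext ?_ e5)) (Prod.ext (Prod.ext e2 ?_) (Prod.ext ?_ e6))
      · exact x1.trans (e1.trans y1.symm)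
      · exact x2.trans (e1.trans y2.symm)
      · exact x7.trans (e3.trans y7.symm)
      · exact x5.trans (e2.trans y5.symm)
    have h4 := H_mono hq h3
    have h5 := H_mono hq (Det.comp (qq A D p) (fun z => (z.1.1.1, z.2.1))
      fun b => (b.1.1.1, b.2.1, b.1.1.2, b.1.2.2))
    rw [p3] at h4
    rw [p1] at h5
    linarith
  · -- f2
    have h3 : Det (qq A D p) (fun z => (z.1.1.1.1.1, z.2.1.1, z.1.1.1.1.2, z.1.1.1.2.2))
        (fun z => (z.1.1.1, z.2.1)) := by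
      intro x y hx hy hxy
      obtain ⟨⟨x1, x2⟩, ⟨x3, x4⟩, x5, ⟨x6, -⟩, ⟨x7, -⟩⟩ := qq_supp hx
      obtain ⟨⟨y1, y2⟩, ⟨y3, y4⟩, y5, ⟨y6, -⟩, ⟨y7, -⟩⟩ := qq_supp hy
      simp only [Prod.mk.injEq] at hxy
      obtain ⟨e1, e2, e3, e4⟩ := hxy
      refine Prod.ext (Prod.ext (Prod.ext e1 e3) (Prod.ext ?_ e4)) (Prod.ext e2 ?_)
      · exact x1.trans (e1.trans y1.symm)
      · exact x7.trans (e3.trans y7.symm)
    have h4 := H_mono hq h3
    rw [p1] at h4
    linarith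
  · -- f3
    have h3 : Det (qq A D p) (fun z => (z.1.1.1.1.1, z.1.2.1.1.1, z.2.1.1, z.1.1.1.1.2, z.1.1.1.2.2,
        z.1.2.2.2, z.1.1.2.2, z.1.2.1.2.2, z.2.2.2)) (fun z => ((z.1.1, z.1.2), z.2)) := by
      intro x y hx hy hxy
      obtain ⟨⟨x1, x2⟩, ⟨x3, x4⟩, x5, ⟨x6, -⟩, ⟨x7, -⟩⟩ := qq_supp hx
      obtain ⟨⟨y1, y2⟩, ⟨y3, y4⟩, y5, ⟨y6, -⟩, ⟨y7, -⟩⟩ := qq_supp hy
      simp only [Prod.mk.injEq] at hxy
      obtain ⟨e1, e2, e3, e4, e5, e6, e7, e8, e9⟩ := hxy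
      refine Prod.ext (Prod.ext (Prod.ext (Prod.ext (Prod.ext e1 e4) (Prod.ext ?_ e5))
        (Prod.ext ?_ e7)) (Prod.ext (Prod.ext (Prod.ext e2 ?_) (Prod.ext ?_ e8))
        (Prod.ext ?_ e6))) (Prod.ext (Prod.ext e3 ?_) (Prod.ext ?_ e9))
      · exact x1.trans (e1.trans y1.symm)
      · exact x2.trans (e1.trans y2.symm)
      · exact x6.trans (e5.trans y6.symm)
      · exact x3.trans (e2.trans y3.symm)
      · exact x4.trans (e2.trans y4.symm)
      · exact x7.trans (e4.trans y7.symm)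
      · exact x5.trans (e3.trans y5.symm)
    have h4 := H_mono hq h3
    have h5 := H_mono hq (Det.comp (qq A D p) (fun z => ((z.1.1.1, (z.1.2.1.1, z.1.2.2)), z.2.1))
      fun b => (b.1.1.1.1, b.1.2.1.1, b.2.1, b.1.1.1.2, b.1.1.2.2, b.1.2.2.2))
    rw [p7] at h4
    rw [p5] at h5
    linarith
  · -- f4
    have h3 : Det (qq A D p) (fun z => (z.1.1.1.1.1, z.1.2.1.1.1, z.2.1.1, z.1.1.1.1.2,
        z.1.1.1.2.2, z.1.2.2.2)) (fun z => ((z.1.1.1, (z.1.2.1.1, z.1.2.2)), z.2.1)) := by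
      intro x y hx hy hxy
      obtain ⟨⟨x1, x2⟩, ⟨x3, x4⟩, x5, ⟨x6, -⟩, ⟨x7, -⟩⟩ := qq_supp hx
      obtain ⟨⟨y1, y2⟩, ⟨y3, y4⟩, y5, ⟨y6, -⟩, ⟨y7, -⟩⟩ := qq_supp hy
      simp only [Prod.mk.injEq] at hxy
      obtain ⟨e1, e2, e3, e4, e5, e6⟩ := hxy
      refine Prod.ext (Prod.ext (Prod.ext (Prod.ext e1 e4) (Prod.ext ?_ e5))
        (Prod.ext (Prod.ext e2 ?_) (Prod.ext ?_ e6))) (Prod.ext e3 ?_)
      · exact x1.trans (e1.trans y1.symm)
      · exact x6.trans (e5.trans y6.symm)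
      · exact x4.trans (e2.trans y4.symm)
      · exact x7.trans (e4.trans y7.symm)
    have h4 := H_mono hq h3
    rw [p5] at h4
    linarith
  · -- mar
    have h1 := H_pair (A := A) (D := D) hp (u := fun a => (a.1.1.1.2, a.1.1.2.2, a.2.2.2,
      cell A D a.1.1.1.2 a.1.1.1.1, cell A D a.2.2.2 a.2.1.1.1)) (v := fun y => y.1)
      (Det.comp (qA A D p) (fun a => (a.1.1.1.2, a.1.1.2.2, a.2.2.2,
      cell A D a.1.1.1.2 a.1.1.1.1, cell A D a.2.2.2 a.2.1.1.1)) fun b => (b.1, b.2.2.2.1))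
      (Det.comp (r2 p) (fun y => y.1) fun b => ce A D b)
    have h2 : H (qq A D p) (fun z => (z.1.1.1.1.2, z.1.1.1.2.2, z.1.2.2.2,
      cell A D z.1.1.1.1.2 z.1.1.1.1.1, cell A D z.1.2.2.2 z.1.2.1.1.1)) =
      H (qA A D p) (fun a => (a.1.1.1.2, a.1.1.2.2, a.2.2.2,
      cell A D a.1.1.1.2 a.1.1.1.1, cell A D a.2.2.2 a.2.1.1.1)) :=
      H_map (qq_fst hp) (fun a => (a.1.1.1.2, a.1.1.2.2, a.2.2.2,
      cell A D a.1.1.1.2 a.1.1.1.1, cell A D a.2.2.2 a.2.1.1.1))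
    rw [H_r2_fst hp] at h1
    have h3 : Det (qq A D p) (fun z => (z.1.1.1.1.2, z.1.1.1.2.2, z.1.2.2.2,
        cell A D z.1.2.2.2 z.1.2.1.1.1, z.2.1.1))
        (fun z => ((z.1.1.1.1.2, z.1.1.1.2.2, z.1.2.2.2,
          cell A D z.1.1.1.1.2 z.1.1.1.1.1, cell A D z.1.2.2.2 z.1.2.1.1.1), z.2.1)) := by
      intro x y hx hy hxy
      obtain ⟨⟨x1, x2⟩, ⟨x3, x4⟩, x5, ⟨x6, -⟩, ⟨x7, x8⟩⟩ := qq_supp hx
      obtain ⟨⟨y1, y2⟩, ⟨y3, y4⟩, y5, ⟨y6, -⟩, ⟨y7, y8⟩⟩ := qq_supp hy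
      simp only [Prod.mk.injEq] at hxy
      obtain ⟨e1, e2, e3, e4, e5⟩ := hxy
      refine Prod.ext (Prod.ext e1 (Prod.ext e2 (Prod.ext e3 (Prod.ext ?_ e4))))
        (Prod.ext e5 ?_)
      · show cell A D x.1.1.1.1.2 x.1.1.1.1.1 = cell A D y.1.1.1.1.2 y.1.1.1.1.1
        rw [x8, y8, e1, e5]
      · exact x7.trans (e1.trans y7.symm)
    have h4 := H_mono hq h3
    refine le_trans ?_ h4
    rw [h1, h2]
    linarith
  · -- pp
    set w := glue (r2 p) (r2 p) (fun z => ce A D z.1) (fun z => ce A D z.1) with hw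
    have hwl : IsLaw w := glue_law (r2_law hp) (r2_law hp) fun _ => rfl
    have hΦ : im (qq A D p) (fun z => ((z.1.1.1.2, z.1.1.1.1), (z.1.2.1.1, z.1.2.2))) = w := by
      rw [im_im (qq A D p) Prod.fst (fun a => ((a.1.1.2, a.1.1.1), (a.2.1.1, a.2.2))), qq_fst hp]
      have h := im_glue (r3 p) (r3 p) (fun x => (x.1.2, x.1.1)) (fun y => (y.1.1, y.2))
        (fun z : (Ω × Fin n) × (Ω × Fin n) => ce A D z.1)
        (fun z : (Ω × Fin n) × (Ω × Fin n) => ce A D z.1)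
      rw [r3_21 hp, r3_13 hp] at h
      exact h
    have hΨ : im (qq A D p) (fun z => ((z.1.1.1.1, z.1.1.2), z.2)) = w := by
      have h := im_glue (qA A D p) (r2 p) (fun a => (a.1.1.1, a.1.2)) (fun y => y)
        (fun z : (Ω × Fin n) × (Ω × Fin n) => ce A D z.1)
        (fun z : (Ω × Fin n) × (Ω × Fin n) => ce A D z.1)
      rw [im_im (qA A D p) Prod.fst (fun z => (z.1.1, z.2)), qA_fst hp, r3_13 hp, im_id] at h
      exact h
    have hs : ∀ y, w y ≠ 0 → y.1.1.1 = y.1.2.1 := by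
      intro y hy
      exact (glue_supp (glue_supp hy).2.1).1
    have l1 : H (qq A D p) (fun z => (z.1.1.1.1.2, z.1.1.1.2.2, z.1.2.2.2,
        cell A D z.1.1.1.1.2 z.1.1.1.1.1, cell A D z.1.2.2.2 z.1.2.1.1.1)) =
        H w (fun y => (y.1.2.2, y.1.1.2, y.2.2.2, cell A D y.1.2.2 y.1.2.1,
          cell A D y.2.2.2 y.2.1.1)) :=
      H_map hΦ (fun y => (y.1.2.2, y.1.1.2, y.2.2.2, cell A D y.1.2.2 y.1.2.1,
          cell A D y.2.2.2 y.2.1.1))
    have l2 : H (qq A D p) (fun z => (z.1.1.1.1.2, z.1.1.1.2.2, z.1.2.2.2)) =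
        H w (fun y => (y.1.2.2, y.1.1.2, y.2.2.2)) :=
      H_map hΦ (fun y => (y.1.2.2, y.1.1.2, y.2.2.2))
    have r1 : H (qq A D p) (fun z => (z.1.1.1.1.2, z.1.1.2.2, z.2.2.2,
        cell A D z.1.1.2.2 z.1.1.1.1.1, cell A D z.2.2.2 z.2.1.1)) =
        H w (fun y => (y.1.1.2, y.1.2.2, y.2.2.2, cell A D y.1.2.2 y.1.1.1,
          cell A D y.2.2.2 y.2.1.1)) :=
      H_map hΨ (fun y => (y.1.1.2, y.1.2.2, y.2.2.2, cell A D y.1.2.2 y.1.1.1,
          cell A D y.2.2.2 y.2.1.1))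
    have r2' : H (qq A D p) (fun z => (z.1.1.1.1.2, z.1.1.2.2, z.2.2.2)) =
        H w (fun y => (y.1.1.2, y.1.2.2, y.2.2.2)) :=
      H_map hΨ (fun y => (y.1.1.2, y.1.2.2, y.2.2.2))
    have c1 : H w (fun y => (y.1.2.2, y.1.1.2, y.2.2.2, cell A D y.1.2.2 y.1.2.1,
          cell A D y.2.2.2 y.2.1.1)) = H w (fun y => (y.1.1.2, y.1.2.2, y.2.2.2,
            cell A D y.1.2.2 y.1.1.1, cell A D y.2.2.2 y.2.1.1)) := by
      refine H_congr hwl ?_ ?_
      · intro x y hx hy hxy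
        simp only [Prod.mk.injEq] at hxy ⊢
        obtain ⟨e1, e2, e3, e4, e5⟩ := hxy
        refine ⟨e2, e1, e3, ?_, e5⟩
        rw [hs x hx, hs y hy, e4]
      · intro x y hx hy hxy
        simp only [Prod.mk.injEq] at hxy ⊢
        obtain ⟨e1, e2, e3, e4, e5⟩ := hxy
        refine ⟨e2, e1, e3, ?_, e5⟩
        rw [← hs x hx, ← hs y hy, e4]
    have c2 : H w (fun y => (y.1.2.2, y.1.1.2, y.2.2.2)) =
        H w (fun y => (y.1.1.2, y.1.2.2, y.2.2.2)) := by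
      refine H_congr hwl ?_ ?_
      · intro x y hx hy hxy
        simp only [Prod.mk.injEq] at hxy ⊢
        exact ⟨hxy.2.1, hxy.1, hxy.2.2⟩
      · intro x y hx hy hxy
        simp only [Prod.mk.injEq] at hxy ⊢
        exact ⟨hxy.2.1, hxy.1, hxy.2.2⟩
    rw [l1, l2, r1, r2', c1, c2]
  · -- c1
    exact psumT _ (n_s0s1 hp) _ _ fun z _ => rfl
  · exact psumT _ (n_s0t hp) _ _ fun z _ => psi_comm _ _ _
  · exact psumT _ (n_s1t hp) _ _ fun z _ => psi_comm _ _ _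
  · refine psumT _ (qq_snd hp) _ _ fun z hz => ?_
    rw [psi_comm, (qq_supp hz).2.2.2.2.1]
  · refine psumT _ (n_s1ta hp) _ _ fun z hz => ?_
    rw [psi_comm, (qq_supp hz).2.2.2.1.1]
  · exact psumT _ (n_tav hp) _ _ fun z _ => rfl
  · refine psumT _ (n_s1v hp) _ _ fun z hz => ?_
    rw [psi_comm]
    show _ = psi n z.1.2.1.1.2 z.1.2.2.2
    rw [(qq_supp hz).2.2.2.1.1]



theorem bd_t (hp : IsLaw p) {s : Ω → ℝ}
    (hs : ∀ (ω : Ω) (x : ℤ), ∑ j : Fin n, p (ω, j) * pz n ((j : ℕ) : ℤ) x ≤ s ω) :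
    BdI n (fun ω => s ω / im p Prod.fst ω) (qq A D p) (fun z => z.1.1.2)
      (fun z => ((z.1.1.1, z.1.2), z.2)) := by
  have b1 : BdI n (fun ω => s ω / im p Prod.fst ω) (r3 p) (fun z => z.2) (fun z => z.1) :=
    bd_base hp hs (r2_law hp) (fun z => z.1.1)
  have b2 : BdI n (fun ω => s ω / im p Prod.fst ω) (qA A D p) (fun z => z.1.2)
      (fun z => (z.1.1, z.2)) :=
    bd_right b1 (r3_law hp) (r3_law hp) (fun i => ce A D i.2) (fun z => ce A D z.1.1)
  exact bd_right b2 (qA_law hp) (r2_law hp) (fun i => ce A D i.1.1) (fun z => ce A D z.1)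

theorem bd_tau (hp : IsLaw p) {s : Ω → ℝ}
    (hs : ∀ (ω : Ω) (x : ℤ), ∑ j : Fin n, p (ω, j) * pz n ((j : ℕ) : ℤ) x ≤ s ω) :
    BdI n (fun ω => s ω / im p Prod.fst ω) (qq A D p) (fun z => z.1.2.1.2)
      (fun z => ((z.1.1, (z.1.2.1.1, z.1.2.2)), z.2)) := by
  have c0 : BdI n (fun ω => s ω / im p Prod.fst ω) (r2 p) (fun z => z.2) (fun z => z.1) :=
    bd_base hp hs hp Prod.fst
  have c1 : BdI n (fun ω => s ω / im p Prod.fst ω) (r3 p) (fun z => z.1.2)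
      (fun z => (z.1.1, z.2)) :=
    bd_right c0 (r2_law hp) hp (fun i => i.1) Prod.fst
  have c2 : BdI n (fun ω => s ω / im p Prod.fst ω) (qA A D p) (fun z => z.2.1.2)
      (fun z => (z.1, (z.2.1.1, z.2.2))) :=
    bd_left c1 (r3_law hp) (fun i => ce A D i.1) (fun z => ce A D z.1.2)
  exact bd_right c2 (qA_law hp) (r2_law hp) (fun i => ce A D i.1.1.1) (fun z => ce A D z.1)

theorem psi_le_pz {n : ℕ} (hn : 1 ≤ n) (i j : ℕ) : psi n i j ≤ pz n (j : ℤ) (i : ℤ) := by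
  unfold psi pz
  have h : |(i : ℝ) - (j : ℝ)| = |((j : ℤ) : ℝ) - ((i : ℤ) : ℝ)| := by
    push_cast
    exact abs_sub_comm _ _
  rw [h]
  refine Real.log_le_log ?_ (le_max_right _ _)
  have h2 : (0 : ℝ) < n := by exact_mod_cast hn
  have h3 : (0 : ℝ) < max 1 |((j : ℤ) : ℝ) - ((i : ℤ) : ℝ)| := lt_of_lt_of_le one_pos (le_max_left _ _)
  positivity

theorem t_cfgu : S_CFGU := by
  intro Ω _ d n A D p S hn hp hS hang
  obtain ⟨s, hs, hsS⟩ := hS
  have hs0 : ∀ ω, 0 ≤ s ω := fun ω => le_trans (Finset.sum_nonneg fun j _ =>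
    mul_nonneg (hp.nonneg _) (pz_nonneg _ _ _)) (hs ω 0)
  have hq : IsLaw (qq A D p) := qq_law hp
  have hce : H p (ce A D) = hh A D p + H p Prod.snd := by
    unfold hh
    have : H p (ce A D) = H p (fun z => (z.2, cell A D z.2 z.1)) := rfl
    rw [this]
    ring
  have hlog := Hlog hp
  have hpid : H p id = aa p + (Real.log n - lam p) := by
    unfold aa lam
    ring
  have haa : H p Prod.fst = aa p := rfl
  have hr2 := H_r2 hp
  rw [haa] at hr2
  refine ⟨((((Ω × Fin n) × (Ω × Fin n)) × (Ω × Fin n)) × (((Ω × Fin n) × (Ω × Fin n)) ×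
    (Ω × Fin n))) × ((Ω × Fin n) × (Ω × Fin n)), inferInstance, qq A D p,
    fun z => z.1.1.1.1.1, fun z => z.1.2.1.1.1, fun z => z.2.1.1, fun z => z.1.1.1.1.2,
    fun z => z.1.1.1.2.2, fun z => z.1.1.2.2, fun z => z.2.2.2, fun z => z.1.2.1.2.2,
    fun z => z.1.2.2.2, ?_⟩
  refine ⟨cfgT hp, ?_, ?_, ?_, ?_, ?_, ?_, ?_⟩
  · -- pq
    set w := glue (r2 p) (r2 p) (fun z => ce A D z.1) (fun z => ce A D z.1) with hw
    have hwl : IsLaw w := glue_law (r2_law hp) (r2_law hp) fun _ => rfl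
    have hΦ : im (qq A D p) (fun z => ((z.1.1.1.2, z.1.1.1.1), (z.1.2.1.1, z.1.2.2))) = w := by
      rw [im_im (qq A D p) Prod.fst (fun a => ((a.1.1.2, a.1.1.1), (a.2.1.1, a.2.2))), qq_fst hp]
      have h := im_glue (r3 p) (r3 p) (fun x => (x.1.2, x.1.1)) (fun y => (y.1.1, y.2))
        (fun z : (Ω × Fin n) × (Ω × Fin n) => ce A D z.1)
        (fun z : (Ω × Fin n) × (Ω × Fin n) => ce A D z.1)
      rw [r3_21 hp, r3_13 hp] at h
      exact h
    have hΨ : im (qq A D p) (fun z => ((z.1.1.1.1, z.1.1.2), z.2)) = w := by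
      have h := im_glue (qA A D p) (r2 p) (fun a => (a.1.1.1, a.1.2)) (fun y => y)
        (fun z : (Ω × Fin n) × (Ω × Fin n) => ce A D z.1)
        (fun z : (Ω × Fin n) × (Ω × Fin n) => ce A D z.1)
      rw [im_im (qA A D p) Prod.fst (fun z => (z.1.1, z.2)), qA_fst hp, r3_13 hp, im_id] at h
      exact h
    have hs' : ∀ y, w y ≠ 0 → y.1.1.1 = y.1.2.1 := by
      intro y hy
      exact (glue_supp (glue_supp hy).2.1).1
    have l1 : H (qq A D p) (fun z => (z.1.1.1.1.2, z.1.2.2.2,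
        cell A D z.1.1.1.1.2 z.1.1.1.1.1, cell A D z.1.2.2.2 z.1.2.1.1.1)) =
        H w (fun y => (y.1.2.2, y.2.2.2, cell A D y.1.2.2 y.1.2.1,
          cell A D y.2.2.2 y.2.1.1)) :=
      H_map hΦ (fun y => (y.1.2.2, y.2.2.2, cell A D y.1.2.2 y.1.2.1,
          cell A D y.2.2.2 y.2.1.1))
    have r1 : H (qq A D p) (fun z => (z.1.1.2.2, z.2.2.2,
        cell A D z.1.1.2.2 z.1.1.1.1.1, cell A D z.2.2.2 z.2.1.1)) =
        H w (fun y => (y.1.2.2, y.2.2.2, cell A D y.1.2.2 y.1.1.1,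
          cell A D y.2.2.2 y.2.1.1)) :=
      H_map hΨ (fun y => (y.1.2.2, y.2.2.2, cell A D y.1.2.2 y.1.1.1,
          cell A D y.2.2.2 y.2.1.1))
    have c1 : H w (fun y => (y.1.2.2, y.2.2.2, cell A D y.1.2.2 y.1.2.1,
          cell A D y.2.2.2 y.2.1.1)) = H w (fun y => (y.1.2.2, y.2.2.2,
            cell A D y.1.2.2 y.1.1.1, cell A D y.2.2.2 y.2.1.1)) := by
      refine H_ae hwl fun y hy => ?_
      rw [hs' y hy]
    exact l1.trans (c1.trans r1.symm)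
  · -- mar2
    have h1 := H_pair (A := A) (D := D) hp (u := fun a => (a.1.1.1.2, a.2.2.2,
      cell A D a.1.1.1.2 a.1.1.1.1, cell A D a.2.2.2 a.2.1.1.1)) (v := fun y => y.1)
      (Det.comp (qA A D p) (fun a => (a.1.1.1.2, a.2.2.2,
      cell A D a.1.1.1.2 a.1.1.1.1, cell A D a.2.2.2 a.2.1.1.1)) fun b => (b.1, b.2.2.1))
      (Det.comp (r2 p) (fun y => y.1) fun b => ce A D b)
    have h2 : H (qq A D p) (fun z => (z.1.1.1.1.2, z.1.2.2.2,
      cell A D z.1.1.1.1.2 z.1.1.1.1.1, cell A D z.1.2.2.2 z.1.2.1.1.1)) =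
      H (qA A D p) (fun a => (a.1.1.1.2, a.2.2.2,
      cell A D a.1.1.1.2 a.1.1.1.1, cell A D a.2.2.2 a.2.1.1.1)) :=
      H_map (qq_fst hp) (fun a => (a.1.1.1.2, a.2.2.2,
      cell A D a.1.1.1.2 a.1.1.1.1, cell A D a.2.2.2 a.2.1.1.1))
    rw [H_r2_fst hp] at h1
    have h3 : Det (qq A D p) (fun z => (z.1.1.1.1.2, z.1.2.2.2,
        cell A D z.1.2.2.2 z.1.2.1.1.1, z.2.1.1))
        (fun z => ((z.1.1.1.1.2, z.1.2.2.2,
          cell A D z.1.1.1.1.2 z.1.1.1.1.1, cell A D z.1.2.2.2 z.1.2.1.1.1), z.2.1)) := by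
      intro x y hx hy hxy
      obtain ⟨⟨x1, x2⟩, ⟨x3, x4⟩, x5, ⟨x6, -⟩, ⟨x7, x8⟩⟩ := qq_supp hx
      obtain ⟨⟨y1, y2⟩, ⟨y3, y4⟩, y5, ⟨y6, -⟩, ⟨y7, y8⟩⟩ := qq_supp hy
      simp only [Prod.mk.injEq] at hxy
      obtain ⟨e1, e3, e4, e5⟩ := hxy
      refine Prod.ext (Prod.ext e1 (Prod.ext e3 (Prod.ext ?_ e4)))
        (Prod.ext e5 ?_)
      · show cell A D x.1.1.1.1.2 x.1.1.1.1.1 = cell A D y.1.1.1.1.2 y.1.1.1.1.1
        rw [x8, y8, e1, e5]
      · exact x7.trans (e1.trans y7.symm)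
    have h4 := H_mono hq h3
    refine le_trans ?_ h4
    rw [h1, h2]
    linarith
  · -- f5
    have h1 := H_pair (A := A) (D := D) hp (u := fun a => a.1.1.1) (v := fun y => y.1)
      (Det.comp (qA A D p) (fun a => a.1.1.1) fun b => ce A D b)
      (Det.comp (r2 p) (fun y => y.1) fun b => ce A D b)
    have h2 : H (qA A D p) (fun a => a.1.1.1) = H p id := by
      rw [← H_r3_11 hp]
      exact H_map (qA_fst hp) (fun a => a.1.1)
    rw [H_r2_fst hp, h2] at h1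
    have p1 := H_pair (A := A) (D := D) hp (u := fun a => a.1.1) (v := fun y => y.1)
      (Det.comp (qA A D p) (fun a => a.1.1) fun b => ce A D b.1)
      (Det.comp (r2 p) (fun y => y.1) fun b => ce A D b)
    have p2 : H (qA A D p) (fun a => a.1.1) = H (r2 p) (fun z => z) := by
      rw [← H_r3_fst hp]
      exact H_map (qA_fst hp) (fun a => a.1)
    rw [H_r2_fst hp, p2] at p1
    have h3 : Det (qq A D p) (fun z => (z.1.1.1.1.1, z.2.1.1, z.1.1.1.1.2, z.1.1.1.2.2))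
        (fun z => (z.1.1.1, z.2.1)) := by
      intro x y hx hy hxy
      obtain ⟨⟨x1, x2⟩, ⟨x3, x4⟩, x5, ⟨x6, -⟩, ⟨x7, -⟩⟩ := qq_supp hx
      obtain ⟨⟨y1, y2⟩, ⟨y3, y4⟩, y5, ⟨y6, -⟩, ⟨y7, -⟩⟩ := qq_supp hy
      simp only [Prod.mk.injEq] at hxy
      obtain ⟨e1, e2, e3, e4⟩ := hxy
      refine Prod.ext (Prod.ext (Prod.ext e1 e3) (Prod.ext ?_ e4)) (Prod.ext e2 ?_)
      · exact x1.trans (e1.trans y1.symm)
      · exact x7.trans (e3.trans y7.symm)
    have h4 := H_mono hq h3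
    have h5 := H_mono hq (Det.comp (qq A D p) (fun z => (z.1.1.1.1, z.2.1))
      fun b => (b.1.1, b.2.1, b.1.2))
    rw [p1] at h4
    rw [h1] at h5
    have h6 : H (qq A D p) (fun z => (z.1.1.1.1.1, z.2.1.1, z.1.1.1.1.2)) ≤
      H p id + H p id - H p (ce A D) := h5
    linarith
  · -- sep_le
    have h1 : sep p ≤ ∑ z, r2 p z * pz n ((z.2.2 : ℕ) : ℤ) ((z.1.2 : ℕ) : ℤ) := by
      unfold sep
      refine Finset.sum_le_sum fun z _ => ?_
      exact mul_le_mul_of_nonneg_left (psi_le_pz hn _ _) ((r2_law hp).nonneg z)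
    refine h1.trans ?_
    exact BdI.use hs0 hsS (bd_base hp hs hp Prod.fst) (r2_snd hp) (fun i => ((i.2 : ℕ) : ℤ))
  · -- a13
    have h := im_glue (qA A D p) (r2 p) (fun a => a.1.1.1) (fun y => y.1) (ce A D) (ce A D)
    rw [im_im (qA A D p) Prod.fst (fun a => a.1.1), qA_fst hp, r3_1 hp, r2_fst hp] at h
    have h2 := sum_im_mul (qq A D p) (fun z => (z.1.1.1.1, z.2.1))
      (fun y => dz n D y.1.1 y.2.1)
    have h3 : im (qq A D p) (fun z => (z.1.1.1.1, z.2.1)) = glue p p (ce A D) (ce A D) := h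
    rw [h3] at h2
    refine le_trans (le_of_eq h2.symm) hang
  · exact BdI.use hs0 hsS (bd_t hp hs) (m_t hp) (fun i => ((i.2.2.2 : ℕ) : ℤ))
  · intro x
    exact BdI.use hs0 hsS (bd_tau hp hs) (m_ta hp)
      (fun i => x i.1.1.1.1.2 i.1.1.1.2.2 i.1.1.2.2 i.2.2.2)

end cfg

end Pool.Agent.Y624.HK
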